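import Pool.Agent.Lib.MP_ae9e3a_al.QCore

set_option autoImplicit false

/-!
# MP_ae9e3a_al: conciseness of every word in the whole class of the virtually
abelian-by-polyprocyclic profinite groups

A profinite group is a compact, Hausdorff, totally disconnected topological group.
-/

namespace Pool.Agent.Results.MP_ae9e3a_al.Concise

open Pool.Agent.Lib.MP_ae9e3a_al

/-- `G` is virtually abelian-by-polyprocyclic: there are an open subgroup `H = C n` and a closed
abelian subgroup `A = C 0`, normal in `H`, such that `H / A` is polyprocyclic, that is, there is a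
chain of closed subgroups `A = C 0 ≤ C 1 ≤ ... ≤ C n = H`, each normal in the next one, with
procyclic quotients `C (i+1) / C i` (topologically generated by the class of one element `x`). -/
def VirtAbPoly (G : Type*) [Group G] [TopologicalSpace G] : Prop :=
  ∃ (n : ℕ) (C : ℕ → Subgroup G), IsOpen (C n : Set G) ∧ (∀ i ≤ n, IsClosed (C i : Set G)) ∧
    (∀ x ∈ C 0, ∀ y ∈ C 0, x * y = y * x) ∧ (∀ a ∈ C 0, ∀ h ∈ C n, h * a * h⁻¹ ∈ C 0) ∧
    ∀ i < n, C i ≤ C (i + 1) ∧ (∀ a ∈ C i, ∀ h ∈ C (i + 1), h * a * h⁻¹ ∈ C i) ∧
      ∃ x ∈ C (i + 1),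
        (C (i + 1) : Set G) ⊆ closure ((C i ⊔ Subgroup.zpowers x : Subgroup G) : Set G)

/-- Every word is concise in the class of all virtually abelian-by-polyprocyclic profinite groups:
if the word `w` has only finitely many values in `G` then its verbal subgroup (the subgroup generated
by the values) is finite. -/
theorem result (G : Type*) [Group G] [TopologicalSpace G] [IsTopologicalGroup G]
    [CompactSpace G] [T2Space G] [TotallyDisconnectedSpace G] (hG : VirtAbPoly G)
    (k : ℕ) (w : FreeGroup (Fin k)) (h : (vals w G).Finite) :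
    (verb w G : Set G).Finite := by
  have hb : Basis1 G := by
    intro U hU
    obtain ⟨O, hOU, hOo, hO1⟩ := mem_nhds_iff.1 hU
    obtain ⟨V, hV⟩ := ProfiniteGrp.exist_openNormalSubgroup_sub_open_nhds_of_one hOo hO1
    exact ⟨V.toSubgroup, inferInstance, V.isOpen', fun x hx => hOU (hV hx)⟩
  obtain ⟨n, C, hCn, hCc, hab, hnorm, hC⟩ := hG
  have hch : ∀ i ≤ n, Chn (C 0) (C i) := by
    intro i
    induction i with
    | zero => exact fun h0 => Chn.refl (hCc 0 h0)
    | succ i ih =>
      intro hi
      obtain ⟨h1, h2, x, hx, h3⟩ := hC i (by omega)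
      exact Chn.step (C i) (C (i + 1)) x (ih (by omega)) h1 (hCc (i + 1) hi) h2 hx h3
  exact concise hb hCn hnorm hab (hch n (le_refl n)) w h

end Pool.Agent.Results.MP_ae9e3a_al.Concise
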